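import Mathlib
import Pool.Agent.Helper27.FF.Transfer2

set_option autoImplicit false

open MeasureTheory

namespace Pool.Agent.Results.MP_e0da8e_an.GenericFourierFrame

open Pool.Agent.Helper27.FF

theorem ne_of_gen {ρ : ℝ} (h0 : 0 < ρ) (hg : Gen ρ) (k : ℕ) : ρ ≠ 1 / (2 * (k : ℝ)) := by
  intro h
  have hk : k ≠ 0 := by
    rintro rfl
    simp at h
    linarith
  have hk' : (k : ℝ) ≠ 0 := Nat.cast_ne_zero.2 hk
  have h1 := hg {0, 1} (fun l => if l = 0 then 1 else -(2 * (k : ℤ)))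
    ⟨0, by simp, by simp⟩ (fun _ => 1)
  apply h1
  have h2 : val ρ (fun _ => 1) = 0 := by
    simp [val, dig]
  rw [h2, Finset.sum_pair (by norm_num)]
  simp only [if_true, one_ne_zero, if_false, pow_zero, pow_one]
  rw [h]
  push_cast
  field_simp
  norm_num

/-- For a dense `G_δ` set `G` of parameters and every `ρ` in `G` with `0 < ρ < 1/100`
(there are such `ρ`), `ρ` is not of the form `1/(2k)`, and for every `d > 0` the space
`L²(μ_{ρ,d})` of the Bernoulli convolution `μ_{ρ,d}` has a Fourier frame. -/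
theorem result : ∃ G : Set ℝ, IsGδ G ∧ Dense G ∧ (G ∩ Set.Ioo (0 : ℝ) (1 / 100)).Nonempty ∧
    ∀ ρ ∈ G ∩ Set.Ioo (0 : ℝ) (1 / 100), (∀ k : ℕ, ρ ≠ 1 / (2 * (k : ℝ))) ∧
      ∀ d : ℝ, 0 < d → HasFourierFrame (bernoulliConv ρ d) := by
  obtain ⟨G, hG1, hG2, hG3⟩ := exists_gen
  refine ⟨G, hG1, hG2, ?_, fun ρ hρ => ?_⟩
  · obtain ⟨x, hx1, hx2⟩ := hG2.inter_open_nonempty (Set.Ioo (0 : ℝ) (1 / 100)) isOpen_Ioo
      ⟨1 / 200, by norm_num, by norm_num⟩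
    exact ⟨x, hx2, hx1⟩
  · have hg : Gen ρ := hG3 ρ hρ.1 hρ.2
    exact ⟨fun k => ne_of_gen hρ.2.1 hg k, fun d hd => main hρ.2.1 hρ.2.2.le hg hd⟩

end Pool.Agent.Results.MP_e0da8e_an.GenericFourierFrame
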